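import Pool.Agent.Z700.Defs3

/-! # Representations of `9 m` by `b² + 14 y²`: rigidity, product formula, total flip (general family) -/

set_option autoImplicit false

namespace Pool.Agent.Y779.Z7

open Finset Pool.Agent.Z701
open Pool.Agent.Z700 (pr X2 Sol3)

theorem prime_of {p : ℕ} (h : Sp p ∨ Nr p) : p.Prime := by
  rcases h with h | h
  · exact h.1
  · exact h.1

theorem ne3_of {p : ℕ} (h : Sp p ∨ Nr p) : p ≠ 3 := by
  rintro rfl
  rcases h with h | h
  · have := h.2.1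
    omega
  · have := h.2.1
    omega

theorem pr_mod8 {P : Finset ℕ} (hP : ∀ p ∈ P, Sp p ∨ Nr p) :
    pr P % 8 = if Even (Pool.Agent.Z701.inr P).card then 1 else 5 := by
  classical
  unfold pr Pool.Agent.Z701.inr
  induction P using Finset.induction_on with
  | empty => simp
  | insert a s ha ih =>
    have ih' := ih fun p hp => hP p (Finset.mem_insert_of_mem hp)
    rw [Finset.prod_insert ha, Nat.mul_mod, ih', Finset.filter_insert]
    rcases hP a (Finset.mem_insert_self a s) with h | h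
    · have h1 := h.2.1
      rw [h1]
      split_ifs <;> simp_all
    · have h1 := h.2.1
      rw [h1]
      have h2 : a ∉ s.filter fun p => p % 8 = 5 := fun h3 => ha (Finset.mem_filter.1 h3).1
      rw [if_pos rfl, Finset.card_insert_of_notMem h2]
      by_cases h3 : Even (s.filter fun p => p % 8 = 5).card
      · rw [if_pos h3, if_neg]
        rw [Nat.even_add_one]
        exact fun h4 => h4 h3
      · rw [if_neg h3, if_pos]
        rw [Nat.even_add_one]
        exact h3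

theorem gd_mod8 {P : Finset ℕ} (hP : Gd P) : pr P % 8 = 1 := by
  rw [pr_mod8 hP.1, if_pos hP.2]

theorem gd_mod3 {P : Finset ℕ} (hP : ∀ p ∈ P, Sp p ∨ Nr p) : ¬ 3 ∣ pr P := by
  classical
  intro h
  unfold pr at h
  rw [Prime.dvd_finsetProd_iff Nat.prime_three.prime] at h
  obtain ⟨p, hp, h3⟩ := h
  have h1 := (Nat.prime_dvd_prime_iff_eq Nat.prime_three (prime_of (hP p hp))).1 h3
  exact ne3_of (hP p hp) h1.symm

theorem pr_dvd {P : Finset ℕ} (hP : ∀ p ∈ P, Sp p ∨ Nr p) {z : ℤ} (h : ∀ p ∈ P, (p : ℤ) ∣ z) :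
    (pr P : ℤ) ∣ z := by
  classical
  unfold pr
  rw [Nat.cast_prod]
  refine Finset.prod_dvd_of_coprime ?_ h
  intro p hp q hq hpq
  have h1 : Nat.Coprime p q := (Nat.coprime_primes (prime_of (hP p hp)) (prime_of (hP q hq))).mpr hpq
  exact Nat.isCoprime_iff_coprime.mpr h1

theorem pr_pos {P : Finset ℕ} (hP : ∀ p ∈ P, Sp p ∨ Nr p) : 0 < pr P :=
  Finset.prod_pos fun p hp => (prime_of (hP p hp)).pos

theorem dvd_pr {P : Finset ℕ} {p : ℕ} (hp : p ∈ P) : p ∣ pr P := Finset.dvd_prod_of_mem _ hp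

theorem pr_sq {P : Finset ℕ} (hP : ∀ p ∈ P, Sp p ∨ Nr p) : Squarefree (pr P) := by
  unfold pr
  refine Finset.squarefree_prod_of_pairwise_isCoprime ?_
    fun p hp => (prime_of (hP p hp)).prime.squarefree
  intro p hp q hq hpq
  exact Nat.coprime_iff_isRelPrime.mp
    ((Nat.coprime_primes (prime_of (hP p hp)) (prime_of (hP q hq))).mpr hpq)

theorem coprime_by {P : Finset ℕ} (hP : ∀ p ∈ P, Sp p ∨ Nr p) {b y : ℤ}
    (h : 9 * (pr P : ℤ) = b ^ 2 + 14 * y ^ 2) (h3 : ¬ (3 : ℤ) ∣ b) : IsCoprime b y := by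
  rw [Int.isCoprime_iff_gcd_eq_one]
  by_contra hg
  obtain ⟨r, hr, hrg⟩ := Nat.exists_prime_and_dvd hg
  have hrb : (r : ℤ) ∣ b := (Int.natCast_dvd_natCast.mpr hrg).trans (Int.gcd_dvd_left ..)
  have hry : (r : ℤ) ∣ y := (Int.natCast_dvd_natCast.mpr hrg).trans (Int.gcd_dvd_right ..)
  have h2 : (r : ℤ) ^ 2 ∣ 9 * (pr P : ℤ) := by
    rw [h]
    exact dvd_add (pow_dvd_pow_of_dvd hrb 2) (Dvd.dvd.mul_left (pow_dvd_pow_of_dvd hry 2) _)
  have h4 : r ^ 2 ∣ 9 * pr P := by exact_mod_cast h2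
  have hr3 : r ≠ 3 := by
    rintro rfl
    exact h3 (by exact_mod_cast hrb)
  have h5 : Nat.Coprime (r ^ 2) 9 := by
    have : Nat.Coprime r 3 := (Nat.coprime_primes hr Nat.prime_three).mpr hr3
    have h9 : (9 : ℕ) = 3 ^ 2 := by norm_num
    rw [h9]
    exact Nat.Coprime.pow _ _ this
  have h6 : r ^ 2 ∣ pr P := h5.dvd_of_dvd_mul_left h4
  have h7 : r * r ∣ pr P := by rwa [← pow_two]
  have h8 := pr_sq hP r h7
  exact hr.one_lt.ne' (Nat.isUnit_iff.mp h8)

theorem t_SOLC : S_SOLC := by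
  rintro P hG ⟨b, y⟩ ⟨hq, hb4, hb3, hyb⟩ ⟨b', y'⟩ ⟨hq', hb4', hb3', hyb'⟩ hdiv
  have hP := hG.1
  simp only at hq hb4 hb3 hyb hq' hb4' hb3' hyb' hdiv
  have hm := pr_dvd hP hdiv
  have hmpos : (0 : ℤ) < pr P := by exact_mod_cast pr_pos hP
  have h9 : (9 : ℤ) ∣ b * y' - b' * y := by
    have h1 : (9 : ℤ) ∣ (b * y' + b' * y) * (b * y' - b' * y) :=
      ⟨(pr P : ℤ) * (y' ^ 2 - y ^ 2), by linear_combination (-(y' ^ 2)) * hq + y ^ 2 * hq'⟩
    have h2 : ¬ (3 : ℤ) ∣ b * y' + b' * y := by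
      intro h
      have h3 : (3 : ℤ) ∣ 2 * (b * b') := by
        have h4 : 2 * (b * b') = (b * y' + b' * y) - b * (y' - b') - b' * (y - b) := by ring
        rw [h4]
        exact dvd_sub (dvd_sub h (Dvd.dvd.mul_left hyb' _)) (Dvd.dvd.mul_left hyb _)
      rcases Int.prime_three.dvd_or_dvd h3 with h5 | h5
      · norm_num at h5
      · rcases Int.prime_three.dvd_or_dvd h5 with h6 | h6
        · exact hb3 h6
        · exact hb3' h6
    have h3 : IsCoprime (9 : ℤ) (b * y' + b' * y) := by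
      have : IsCoprime (3 : ℤ) (b * y' + b' * y) :=
        (Int.prime_three.coprime_iff_not_dvd).mpr h2
      have h9 : (9 : ℤ) = 3 ^ 2 := by norm_num
      rw [h9]
      exact this.pow_left
    exact h3.dvd_of_dvd_mul_left h1
  have hcop : IsCoprime (9 : ℤ) (pr P : ℤ) := by
    have h1 : Nat.Coprime 9 (pr P) := by
      have h2 : Nat.Coprime 3 (pr P) := by
        rw [Nat.Prime.coprime_iff_not_dvd Nat.prime_three]
        exact gd_mod3 hP
      have h9 : (9 : ℕ) = 3 ^ 2 := by norm_num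
      rw [h9]
      exact h2.pow_left _
    exact_mod_cast Nat.isCoprime_iff_coprime.mpr h1
  have hall : 9 * (pr P : ℤ) ∣ b * y' - b' * y := hcop.mul_dvd h9 hm
  have hid : (b * b' + 14 * y * y') ^ 2 + 14 * (b * y' - b' * y) ^ 2 = (9 * (pr P : ℤ)) ^ 2 := by
    have : (9 * (pr P : ℤ)) ^ 2 = (b ^ 2 + 14 * y ^ 2) * (b' ^ 2 + 14 * y' ^ 2) := by
      rw [← hq, ← hq']
      ring
    rw [this]
    ring
  have hW : b * y' - b' * y = 0 := by
    by_contra hne
    obtain ⟨c, hc⟩ := hall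
    have hc0 : c ≠ 0 := by
      rintro rfl
      exact hne (by rw [hc]; ring)
    have hc1 : 1 ≤ c ^ 2 := by
      have h2 : 0 < c ^ 2 := by positivity
      omega
    rw [hc] at hid
    nlinarith [sq_nonneg (b * b' + 14 * y * y'), mul_pos hmpos hmpos,
      mul_le_mul_of_nonneg_left hc1 (by positivity : (0:ℤ) ≤ (9 * (pr P : ℤ)) ^ 2)]
  have hy0 : ¬ (3 : ℤ) ∣ y := fun h => hb3 (by
    have : b = y - (y - b) := by ring
    rw [this]
    exact dvd_sub h hyb)
  have hy1 : y ≠ 0 := by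
    rintro rfl
    exact hy0 (dvd_zero _)
  have h2 : y' ^ 2 = y ^ 2 := by
    have h3 : 9 * (pr P : ℤ) * (y' ^ 2 - y ^ 2) = 0 := by
      have : 9 * (pr P : ℤ) * (y' ^ 2 - y ^ 2) = (b * y' + b' * y) * (b * y' - b' * y) := by
        linear_combination (y' ^ 2) * hq - y ^ 2 * hq'
      rw [this, hW, mul_zero]
    rcases mul_eq_zero.mp h3 with h4 | h4
    · exfalso
      have : (9 : ℤ) * (pr P : ℤ) > 0 := by positivity
      omega
    · linarith
  rcases sq_eq_sq_iff_eq_or_eq_neg.mp h2 with h3 | h3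
  · subst h3
    have h4 : (b - b') * y' = 0 := by linear_combination hW
    rcases mul_eq_zero.mp h4 with h5 | h5
    · have : b = b' := by linarith
      rw [this]
    · exact absurd h5 hy1
  · subst h3
    have h4 : (b + b') * y = 0 := by linear_combination -hW
    rcases mul_eq_zero.mp h4 with h5 | h5
    · exfalso
      omega
    · exact absurd h5 hy1

theorem prod_jacobi {P : Finset ℕ} (hP : ∀ p ∈ P, Sp p ∨ Nr p) (y : ℤ) :
    ∏ p ∈ P, jacobiSym y p = jacobiSym y (pr P) := by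
  classical
  unfold pr
  induction P using Finset.induction_on with
  | empty => simp
  | insert a s ha ih =>
    have hs : ∀ p ∈ s, Sp p ∨ Nr p := fun p hp => hP p (Finset.mem_insert_of_mem hp)
    have hap : 0 < a := (prime_of (hP a (Finset.mem_insert_self a s))).pos
    have hsp : 0 < ∏ p ∈ s, p := Finset.prod_pos fun p hp => (prime_of (hs p hp)).pos
    have : NeZero a := ⟨hap.ne'⟩
    have : NeZero (∏ p ∈ s, p) := ⟨hsp.ne'⟩
    rw [Finset.prod_insert ha, Finset.prod_insert ha, jacobiSym.mul_right, ih hs]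

theorem t_SOLP : S_SOLP := by
  classical
  rintro P hG ⟨b, y⟩ ⟨hq, hb4, hb3, hyb⟩
  have hP := hG.1
  simp only at hq hb4 hb3 hyb ⊢
  have hcop := coprime_by hP hq hb3
  have hmod := gd_mod8 hG
  have hpy : ∀ p ∈ P, ¬ (p : ℤ) ∣ y := by
    intro p hp hd
    have hpb : (p : ℤ) ∣ b ^ 2 := by
      have h1 : b ^ 2 = 9 * (pr P : ℤ) - 14 * y ^ 2 := by linarith
      rw [h1]
      refine dvd_sub (Dvd.dvd.mul_left (by exact_mod_cast dvd_pr hp) _) ?_
      exact Dvd.dvd.mul_left (dvd_pow hd two_ne_zero) _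
    have hpp : Prime (p : ℤ) := Nat.prime_iff_prime_int.mp (prime_of (hP p hp))
    exact hpp.not_isUnit (hcop.isUnit_of_dvd' (hpp.dvd_of_dvd_pow hpb) hd)
  refine ⟨fun p hp => ?_, ?_⟩
  · apply jacobiSym.eq_one_or_neg_one
    rw [Int.gcd_comm, ← Int.isCoprime_iff_gcd_eq_one]
    have hpp : Prime (p : ℤ) := Nat.prime_iff_prime_int.mp (prime_of (hP p hp))
    exact (hpp.coprime_iff_not_dvd).mpr (hpy p hp)
  · rw [prod_jacobi hP]
    have hm1 : pr P % 4 = 1 := by omega
    have hmodd : Odd (pr P) := by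
      rw [Nat.odd_iff]
      omega
    have hneg : jacobiSym (-1) (pr P) = 1 := by
      rw [jacobiSym.at_neg_one hmodd, ZMod.χ₄_nat_one_mod_four hm1]
    have htwo : jacobiSym 2 (pr P) = 1 := by
      rw [jacobiSym.at_two hmodd, ZMod.χ₈_nat_eq_if_mod_eight]
      simp [hmod]
      omega
    have hy0 : y ≠ 0 := by
      rintro rfl
      apply hb3
      have : b = -(0 - b) := by ring
      rw [this]
      exact (dvd_neg).mpr hyb
    -- reduce to the absolute value
    have habs : jacobiSym y (pr P) = jacobiSym (y.natAbs : ℤ) (pr P) := by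
      rcases Int.natAbs_eq y with h | h
      · rw [← h]
      · conv_lhs => rw [h]
        rw [← neg_one_mul, jacobiSym.mul_left, hneg, one_mul]
    obtain ⟨i, o, hodd, ho⟩ := Nat.exists_eq_two_pow_mul_odd (Int.natAbs_ne_zero.mpr hy0)
    rw [habs, ho]
    push_cast
    rw [jacobiSym.mul_left, jacobiSym.pow_left, htwo, one_pow, one_mul]
    rw [← jacobiSym.quadratic_reciprocity_one_mod_four hm1 hodd]
    have hoy : (o : ℤ) ∣ y := Int.natCast_dvd.mpr ⟨2 ^ i, by rw [ho]; ring⟩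
    have hbo : IsCoprime b (o : ℤ) := hcop.of_isCoprime_of_dvd_right hoy
    have h3o : IsCoprime (3 : ℤ) (o : ℤ) := by
      rw [Int.prime_three.coprime_iff_not_dvd]
      intro h
      have h1 : (3 : ℤ) ∣ y := h.trans hoy
      apply hb3
      have : b = y - (y - b) := by ring
      rw [this]
      exact dvd_sub h1 hyb
    have e1 : jacobiSym (9 * (pr P : ℤ)) o = jacobiSym (b ^ 2) o := by
      apply jacobiSym.mod_left'
      apply Int.emod_emod_of_dvd _ (dvd_refl _) |>.symm.trans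
      rw [hq]
      rw [Int.emod_emod_of_dvd _ (dvd_refl _)]
      obtain ⟨t, ht⟩ := hoy
      rw [show b ^ 2 + 14 * y ^ 2 = b ^ 2 + (o : ℤ) * (14 * t * y) by rw [pow_two y]; nth_rw 1 [ht]; ring]
      exact Int.add_mul_emod_self_left _ _ _
    have e2 : jacobiSym (b ^ 2) o = 1 := by
      rw [jacobiSym.sq_one' (Int.isCoprime_iff_gcd_eq_one.mp hbo)]
    have e3 : jacobiSym 9 o = 1 := by
      have : (9 : ℤ) = 3 ^ 2 := by norm_num
      rw [this]
      exact jacobiSym.sq_one' (Int.isCoprime_iff_gcd_eq_one.mp h3o)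
    rw [jacobiSym.mul_left, e3, one_mul, e2] at e1
    exact e1

/-- the product modulo seven -/
theorem jac7_of {p : ℕ} (h : Sp p ∨ Nr p) : jacobiSym p 7 = if p % 8 = 5 then -1 else 1 := by
  have h7 : jacobiSym p 7 = jacobiSym ((p % 7 : ℕ) : ℤ) 7 := by
    apply jacobiSym.mod_left'
    push_cast
    simp
  rw [h7]
  rcases h with h | h
  · rw [if_neg (by have := h.2.1; omega)]
    rcases h.2.2 with h1 | h1 | h1 <;> rw [h1] <;> norm_num
  · rw [if_pos h.2.1]
    rcases h.2.2 with h1 | h1 | h1 <;> rw [h1] <;> norm_num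

theorem pr_jac7 {P : Finset ℕ} (hP : ∀ p ∈ P, Sp p ∨ Nr p) :
    jacobiSym (pr P : ℤ) 7 = (-1) ^ (Pool.Agent.Z701.inr P).card := by
  classical
  unfold pr Pool.Agent.Z701.inr
  induction P using Finset.induction_on with
  | empty => simp
  | insert a s ha ih =>
    have ih' := ih fun p hp => hP p (Finset.mem_insert_of_mem hp)
    rw [Finset.prod_insert ha, Nat.cast_mul, jacobiSym.mul_left, ih',
      jac7_of (hP a (Finset.mem_insert_self a s)), Finset.filter_insert]
    split_ifs with h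
    · have h2 : a ∉ s.filter fun p => p % 8 = 5 := fun h3 => ha (Finset.mem_filter.1 h3).1
      rw [Finset.card_insert_of_notMem h2, pow_succ]
      ring
    · rw [one_mul]

theorem gd_jac7 {P : Finset ℕ} (hP : Gd P) : jacobiSym (pr P : ℤ) 7 = 1 := by
  rw [pr_jac7 hP.1, hP.2.neg_one_pow]

/-- the solutions of `X² + 14 Y² = 81` with `3 ∤ Y` -/
theorem sol81 {x z : ℤ} (h : x ^ 2 + 14 * z ^ 2 = 81) (hz : ¬ (3 : ℤ) ∣ z) : x = 5 ∨ x = -5 := by
  have h1 : -3 < z := by nlinarith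
  have h2 : z < 3 := by nlinarith
  have h3 : z ≠ 0 := by
    rintro rfl
    exact hz (dvd_zero _)
  have h4 : z ^ 2 = 1 ∨ z ^ 2 = 4 := by
    have : z = -2 ∨ z = -1 ∨ z = 1 ∨ z = 2 := by omega
    rcases this with rfl | rfl | rfl | rfl <;> norm_num
  rcases h4 with h4 | h4
  · exfalso
    rw [h4] at h
    have h5 : x ^ 2 = 67 := by linarith
    have h6 : x < 9 := by nlinarith
    have h7 : -9 < x := by nlinarith
    interval_cases x <;> norm_num at h5
  · rw [h4] at h
    have h5 : x ^ 2 = 5 ^ 2 := by linarith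
    exact sq_eq_sq_iff_eq_or_eq_neg.mp h5

theorem t_SOLT : S_SOLT := by
  rintro P hG - ⟨b, y⟩ ⟨hq, hb4, hb3, hyb⟩ ⟨b', y'⟩ ⟨hq', hb4', hb3', hyb'⟩ hdiv
  have hP := hG.1
  simp only at hq hb4 hb3 hyb hq' hb4' hb3' hyb' hdiv ⊢
  have hmpos : (0 : ℤ) < pr P := by exact_mod_cast pr_pos hP
  obtain ⟨Y, hY⟩ := pr_dvd hP hdiv
  have hid : (b * b' - 14 * y * y') ^ 2 + 14 * (b * y' + b' * y) ^ 2 = (9 * (pr P : ℤ)) ^ 2 := by
    have : (9 * (pr P : ℤ)) ^ 2 = (b ^ 2 + 14 * y ^ 2) * (b' ^ 2 + 14 * y' ^ 2) := by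
      rw [← hq, ← hq']
      ring
    rw [this]
    ring
  -- `pr P` divides `b b' - 14 y y'`
  have hX : (pr P : ℤ) ∣ b * b' - 14 * y * y' := by
    refine pr_dvd hP fun p hp => ?_
    have hpp : Prime (p : ℤ) := Nat.prime_iff_prime_int.mp (prime_of (hP p hp))
    refine hpp.dvd_of_dvd_pow (n := 2) ?_
    have h1 : (b * b' - 14 * y * y') ^ 2 = (9 * (pr P : ℤ)) ^ 2 - 14 * (b * y' + b' * y) ^ 2 := by
      linarith
    rw [h1]
    refine dvd_sub ?_ ?_
    · exact dvd_pow (Dvd.dvd.mul_left (by exact_mod_cast dvd_pr hp) _) two_ne_zero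
    · exact Dvd.dvd.mul_left (dvd_pow (hdiv p hp) two_ne_zero) _
  obtain ⟨Z, hZ⟩ := hX
  have h81 : Z ^ 2 + 14 * Y ^ 2 = 81 := by
    rw [hZ, hY] at hid
    have h1 : (pr P : ℤ) ^ 2 * (Z ^ 2 + 14 * Y ^ 2) = (pr P : ℤ) ^ 2 * 81 := by linarith
    exact mul_left_cancel₀ (by positivity) h1
  have h3 : ¬ (3 : ℤ) ∣ Y := by
    intro h
    have h2 : (3 : ℤ) ∣ b * y' + b' * y := by
      rw [hY]
      exact Dvd.dvd.mul_left h _
    have h3 : (3 : ℤ) ∣ 2 * (b * b') := by
      have h4 : 2 * (b * b') = (b * y' + b' * y) - b * (y' - b') - b' * (y - b) := by ring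
      rw [h4]
      exact dvd_sub (dvd_sub h2 (Dvd.dvd.mul_left hyb' _)) (Dvd.dvd.mul_left hyb _)
    rcases Int.prime_three.dvd_or_dvd h3 with h5 | h5
    · norm_num at h5
    · rcases Int.prime_three.dvd_or_dvd h5 with h6 | h6
      · exact hb3 h6
      · exact hb3' h6
  have hm8 : (pr P : ℤ) % 8 = 1 := by exact_mod_cast gd_mod8 hG
  -- `y` is even
  have hye : (2 : ℤ) ∣ y := by
    by_contra hno
    have h1 : y % 2 = 1 := by omega
    have hy2 : y ^ 2 % 8 = 1 := by
      have : y % 8 = 1 ∨ y % 8 = 3 ∨ y % 8 = 5 ∨ y % 8 = 7 := by omega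
      rcases this with h | h | h | h <;> simp [pow_two, Int.mul_emod, h]
    have hb2 : b ^ 2 % 8 = 1 := by
      have : b % 8 = 1 ∨ b % 8 = 5 := by omega
      rcases this with h | h <;> simp [pow_two, Int.mul_emod, h]
    omega
  have hZ5 : Z = 5 := by
    rcases sol81 h81 h3 with h | h
    · exact h
    · exfalso
      rw [h] at hZ
      obtain ⟨t, ht⟩ := hye
      have h4 : b * b' % 4 = 1 := by simp [Int.mul_emod, hb4, hb4']
      have h5 : (b * b' - 14 * y * y') % 4 = 1 := by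
        have : b * b' - 14 * y * y' = b * b' + 4 * (-(7 * t * y')) := by
          rw [ht]
          ring
        rw [this, Int.add_mul_emod_self_left, h4]
      rw [hZ] at h5
      omega
  -- modulo seven
  rw [hZ5] at hZ
  have h7 : jacobiSym (b * b') 7 = jacobiSym ((pr P : ℤ) * 5) 7 := by
    apply jacobiSym.mod_left'
    have : b * b' = (pr P : ℤ) * 5 + 7 * (2 * y * y') := by linarith
    rw [this]
    exact Int.add_mul_emod_self_left _ _ _
  have h57 : jacobiSym 5 7 = -1 := by norm_num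
  rw [jacobiSym.mul_left, jacobiSym.mul_left, gd_jac7 hG, h57, one_mul] at h7
  have hb7 : jacobiSym b 7 = 1 ∨ jacobiSym b 7 = -1 ∨ jacobiSym b 7 = 0 := by
    rcases jacobiSym.trichotomy b 7 with h | h | h
    · exact Or.inr (Or.inr h)
    · exact Or.inl h
    · exact Or.inr (Or.inl h)
  rcases hb7 with h | h | h
  · rw [h, one_mul] at h7
    rw [h, h7]
  · rw [h] at h7
    rw [h]
    linarith
  · rw [h] at h7
    norm_num at h7

end Pool.Agent.Y779.Z7
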